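import Pool.Agent.Helper71.LINE.Two

/-! (LINE): coefficients of the transport equation are polynomials along the lines. -/

set_option autoImplicit false

namespace Pool.Agent.Helper71.LINE

open Finset Filter Topology Pool.Agent.Helper69.RK Pool.Agent.Helper31.EC Pool.Agent.Helper31.EC.Sp
open Pool.Agent.Helper31.EC.QS Pool.Agent.Helper57.TA

noncomputable section

section alg

variable {A κ σ : Type} [CommRing A]

/-- polynomials with coefficients in a subring -/
def Cf (U : Subring A) : Subring (MvPolynomial κ A) where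
  carrier := {P | ∀ m, P.coeff m ∈ U}
  mul_mem' := by
    classical
    intro P Q hP hQ m
    rw [MvPolynomial.coeff_mul]
    exact U.sum_mem fun x _ => U.mul_mem (hP x.1) (hQ x.2)
  one_mem' := by
    classical
    intro m
    rw [MvPolynomial.coeff_one]
    split_ifs
    · exact U.one_mem
    · exact U.zero_mem
  add_mem' := by
    intro P Q hP hQ m
    rw [MvPolynomial.coeff_add]
    exact U.add_mem (hP m) (hQ m)
  zero_mem' := by
    intro m
    rw [MvPolynomial.coeff_zero]
    exact U.zero_mem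
  neg_mem' := by
    intro P hP m
    rw [MvPolynomial.coeff_neg]
    exact U.neg_mem (hP m)

theorem C_Cf {U : Subring A} {a : A} (h : a ∈ U) : (MvPolynomial.C a : MvPolynomial κ A) ∈ Cf U := by
  classical
  intro m
  rw [MvPolynomial.coeff_C]
  split_ifs
  · exact h
  · exact U.zero_mem

theorem X_Cf (U : Subring A) (k : κ) : (MvPolynomial.X k : MvPolynomial κ A) ∈ Cf U := by
  classical
  intro m
  rw [MvPolynomial.coeff_X]
  split_ifs
  · exact U.one_mem
  · exact U.zero_mem

theorem sbs_Cf {U : Subring A} {P : MvPolynomial σ A} (hP : P ∈ Cf U) {φ : σ → MvPolynomial κ A}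
    (hφ : ∀ a, φ a ∈ Cf U) : MvPolynomial.aeval φ P ∈ Cf U := by
  rw [MvPolynomial.aeval_def, MvPolynomial.eval₂_eq]
  apply (Cf U).sum_mem
  intro m _
  apply (Cf U).mul_mem
  · rw [MvPolynomial.algebraMap_eq]
    exact C_Cf (hP m)
  · exact (Cf U).prod_mem fun a _ => (Cf U).pow_mem (hφ a) _

/-- the terms of top degree of a shifted monomial -/
theorem coeff_shift [Fintype κ] [DecidableEq κ] (g : κ → A) : ∀ (N : ℕ) (n : κ →₀ ℕ), ∑ k, n k = N →
    ∀ m : κ →₀ ℕ, N ≤ ∑ k, m k →
      (∏ k, (MvPolynomial.X k + MvPolynomial.C (g k)) ^ n k).coeff m = if n = m then 1 else 0 := by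
  intro N
  induction N with
  | zero =>
    intro n hn m _
    have h0 : n = 0 := by
      refine Finsupp.ext fun k => ?_
      rw [Finset.sum_eq_zero_iff] at hn
      exact hn k (Finset.mem_univ k)
    subst h0
    simp only [Finsupp.zero_apply, pow_zero, Finset.prod_const_one]
    rw [MvPolynomial.coeff_one]
  | succ N ih =>
    intro n hn m hm
    obtain ⟨k, hk⟩ : ∃ k, 0 < n k := by
      by_contra hc
      push Not at hc
      have h1 : ∑ k, n k = 0 := Finset.sum_eq_zero fun k _ => Nat.le_zero.mp (hc k)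
      omega
    obtain ⟨n', hn'⟩ : ∃ n', n' = n - Finsupp.single k 1 := ⟨_, rfl⟩
    have e : n = n' + Finsupp.single k 1 := by
      refine Finsupp.ext fun j => ?_
      rw [hn', Finsupp.add_apply, Finsupp.tsub_apply]
      by_cases hj : j = k
      · subst hj
        rw [Finsupp.single_eq_same]
        omega
      · rw [Finsupp.single_eq_of_ne hj]
        omega
    have hs : ∑ j, n' j = N := by
      have h1 : ∑ j, n j = ∑ j, n' j + 1 := by
        rw [e]
        simp only [Finsupp.add_apply, Finset.sum_add_distrib]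
        congr 1
        rw [Finset.sum_eq_single k]
        · rw [Finsupp.single_eq_same]
        · intro j _ hj
          rw [Finsupp.single_eq_of_ne hj]
        · intro h
          exact absurd (Finset.mem_univ _) h
      omega
    have hp : ∏ j, (MvPolynomial.X j + MvPolynomial.C (g j) : MvPolynomial κ A) ^ n j =
        (∏ j, (MvPolynomial.X j + MvPolynomial.C (g j)) ^ n' j) * (MvPolynomial.X k + MvPolynomial.C (g k)) := by
      rw [e]
      simp only [Finsupp.add_apply, pow_add, Finset.prod_mul_distrib]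
      congr 1
      rw [Finset.prod_eq_single k]
      · rw [Finsupp.single_eq_same, pow_one]
      · intro j _ hj
        rw [Finsupp.single_eq_of_ne hj, pow_zero]
      · intro h
        exact absurd (Finset.mem_univ _) h
    rw [hp, mul_add, MvPolynomial.coeff_add, MvPolynomial.coeff_mul_X', mul_comm _ (MvPolynomial.C (g k)),
      MvPolynomial.coeff_C_mul]
    have h1 := ih n' hs m (by omega)
    rw [h1, if_neg (show n' ≠ m from fun h => by rw [h] at hs; omega), mul_zero, add_zero]
    by_cases hkm : k ∈ m.support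
    · rw [if_pos hkm]
      have hkm' : m k ≠ 0 := Finsupp.mem_support_iff.mp hkm
      obtain ⟨m', hm'⟩ : ∃ m', m' = m - Finsupp.single k 1 := ⟨_, rfl⟩
      have e' : m = m' + Finsupp.single k 1 := by
        refine Finsupp.ext fun j => ?_
        rw [hm', Finsupp.add_apply, Finsupp.tsub_apply]
        by_cases hj : j = k
        · subst hj
          rw [Finsupp.single_eq_same]
          omega
        · rw [Finsupp.single_eq_of_ne hj]
          omega
      have hs' : ∑ j, m j = ∑ j, m' j + 1 := by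
        rw [e']
        simp only [Finsupp.add_apply, Finset.sum_add_distrib]
        congr 1
        rw [Finset.sum_eq_single k]
        · rw [Finsupp.single_eq_same]
        · intro j _ hj
          rw [Finsupp.single_eq_of_ne hj]
        · intro h
          exact absurd (Finset.mem_univ _) h
      rw [← hm', ih n' hs m' (by omega)]
      by_cases hnm : n' = m'
      · rw [if_pos hnm, if_pos (by rw [e, e', hnm])]
      · rw [if_neg hnm, if_neg (fun h => hnm (by rw [hn', hm', h]))]
    · rw [if_neg hkm, if_neg]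
      intro h
      rw [Finsupp.mem_support_iff, not_not] at hkm
      rw [h] at hk
      omega

end alg

variable {W : Sp}

/-- functions which are polynomials in two times, with known coefficients, up to level `r` -/
def TP (b : W.L) (τ τ' : QS W) (r : ℝ) : Subring (QS W) where
  carrier := {f | ∃ Ψ : MvPolynomial (Fin 2) (QS W), Ψ ∈ PK b ∧ f - MvPolynomial.eval ![τ, τ'] Ψ ∈ Id W r}
  mul_mem' := by
    rintro f g ⟨Ψ, h1, h2⟩ ⟨Φ, h3, h4⟩
    refine ⟨Ψ * Φ, (PK b).mul_mem h1 h3, ?_⟩
    rw [map_mul]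
    have e : f * g - MvPolynomial.eval ![τ, τ'] Ψ * MvPolynomial.eval ![τ, τ'] Φ =
        (f - MvPolynomial.eval ![τ, τ'] Ψ) * g + MvPolynomial.eval ![τ, τ'] Ψ * (g - MvPolynomial.eval ![τ, τ'] Φ) := by
      ring
    rw [e]
    exact (Id W r).add_mem ((Id W r).mul_mem_right _ h2) ((Id W r).mul_mem_left _ h4)
  one_mem' := ⟨1, (PK b).one_mem, by rw [map_one, sub_self]; exact (Id W r).zero_mem⟩
  add_mem' := by
    rintro f g ⟨Ψ, h1, h2⟩ ⟨Φ, h3, h4⟩
    refine ⟨Ψ + Φ, (PK b).add_mem h1 h3, ?_⟩
    rw [map_add, add_sub_add_comm]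
    exact (Id W r).add_mem h2 h4
  zero_mem' := ⟨0, (PK b).zero_mem, by rw [map_zero, sub_self]; exact (Id W r).zero_mem⟩
  neg_mem' := by
    rintro f ⟨Ψ, h1, h2⟩
    refine ⟨-Ψ, (PK b).neg_mem h1, ?_⟩
    rw [map_neg, ← neg_sub', ← neg_sub_neg, neg_sub_neg]
    have h3 := (Id W r).neg_mem h2
    rwa [neg_sub] at h3 ⊢

theorem TP_const {b : W.L} {τ τ' : QS W} {r : ℝ} {f : QS W} (h : dg f 1 ≤ b) : f ∈ TP b τ τ' r :=
  ⟨MvPolynomial.C f, C_mem h, by rw [MvPolynomial.eval_C, sub_self]; exact (Id W r).zero_mem⟩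

theorem TP_fst (b : W.L) (τ τ' : QS W) (r : ℝ) : τ ∈ TP b τ τ' r :=
  ⟨MvPolynomial.X 0, X_mem _ _, by rw [MvPolynomial.eval_X]; show τ - τ ∈ _; rw [sub_self]; exact (Id W r).zero_mem⟩

theorem TP_snd (b : W.L) (τ τ' : QS W) (r : ℝ) : τ' ∈ TP b τ τ' r :=
  ⟨MvPolynomial.X 1, X_mem _ _, by rw [MvPolynomial.eval_X]; show τ' - τ' ∈ _; rw [sub_self]; exact (Id W r).zero_mem⟩

theorem TP_small {b : W.L} {τ τ' : QS W} {r : ℝ} {f : QS W} (h : f ∈ Id W r) : f ∈ TP b τ τ' r :=
  ⟨0, (PK b).zero_mem, by rw [map_zero, sub_zero]; exact h⟩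

theorem TP_eval {b : W.L} {τ τ' : QS W} {r : ℝ} {G : MvPolynomial (Fin 2) (QS W)} (h : G ∈ PK b) :
    MvPolynomial.eval ![τ, τ'] G ∈ TP b τ τ' r :=
  ⟨G, h, by rw [sub_self]; exact (Id W r).zero_mem⟩

/-- (LINE) -/
theorem st_LINE : ST_LINE := by
  classical
  intro S W P P' ν κ _ _ bf t R qi A c r G p hr0 hr hbf hqi hA hc hG hR hp hcc hRl ht m₀
  obtain ⟨b, hb⟩ : ∃ b, b = P.map (vd bf 1) := ⟨_, rfl⟩
  have hb' : P'.map (vd bf 1) = b := by
    rw [hb, ← P'.qs_vd, ← P.qs_vd]
    congr 1
    funext i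
    exact (hbf i).symm
  obtain ⟨τ, hτ⟩ : ∃ τ, τ = P.qs t := ⟨_, rfl⟩
  obtain ⟨τ', hτ'⟩ : ∃ τ', τ' = P'.qs t := ⟨_, rfl⟩
  rw [← hb] at hG hp hRl
  rw [← hτ, ← hτ'] at hR hcc hRl
  obtain ⟨g, hg⟩ : ∃ g : κ → QS W, g = fun k => MvPolynomial.eval ![τ, τ'] (G k) := ⟨_, rfl⟩
  have hgU : ∀ k, g k ∈ TP b τ τ' r := fun k => by rw [hg]; exact TP_eval (hG k)
  obtain ⟨φ, hφ⟩ : ∃ φ : κ → MvPolynomial κ (QS W), φ = fun k => MvPolynomial.X k + MvPolynomial.C (g k) := ⟨_, rfl⟩
  obtain ⟨ψ, hψ⟩ : ∃ ψ : κ ⊕ Fin 2 → MvPolynomial κ (QS W),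
      ψ = Sum.elim MvPolynomial.X (fun i => MvPolynomial.C ((![τ, τ'] : Fin 2 → QS W) i)) := ⟨_, rfl⟩
  obtain ⟨B, hB⟩ : ∃ B, B = b ⊔ (dg τ 1 ⊔ dg τ' 1) := ⟨_, rfl⟩
  rw [← hB] at hRl
  have hbB : b ≤ B := by rw [hB]; exact le_sup_left
  have hτB : dg τ 1 ≤ B := by rw [hB]; exact le_sup_left.trans le_sup_right
  have hτB' : dg τ' 1 ≤ B := by rw [hB]; exact le_sup_right.trans le_sup_right
  have hτi : ∀ i, dg ((![τ, τ'] : Fin 2 → QS W) i) 1 ≤ B := by
    intro i
    fin_cases i
    · exact hτB
    · exact hτB'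
  have hgB : ∀ k, dg (g k) 1 ≤ B := fun k => by
    rw [hg]
    exact eval_mem (hG k) _ hbB hτi
  -- the transport equation as a polynomial in the vertical coordinates
  obtain ⟨A', hA'⟩ : ∃ A' : MvPolynomial κ (QS W), A' = MvPolynomial.map P'.qs A := ⟨_, rfl⟩
  obtain ⟨A₀, hA₀⟩ : ∃ A₀ : MvPolynomial κ (QS W), A₀ = MvPolynomial.map P.qs A := ⟨_, rfl⟩
  obtain ⟨Q, hQ⟩ : ∃ Q : MvPolynomial κ (QS W),
      Q = MvPolynomial.aeval φ A' - A₀ - MvPolynomial.aeval ψ p := ⟨_, rfl⟩
  have hA'k : A' ∈ PK B := by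
    rw [hA']
    refine PK_mono ?_ (map_PK P' hA)
    refine (P'.map_mono hqi).trans ?_
    rw [P'.map_sup, hb', ← P'.qs_dg, ← hτ']
    exact sup_le hbB hτB'
  have hA₀k : A₀ ∈ PK B := by
    rw [hA₀]
    refine PK_mono ?_ (map_PK P hA)
    refine (P.map_mono hqi).trans ?_
    rw [P.map_sup, ← hb, ← P.qs_dg, ← hτ]
    exact sup_le hbB hτB
  have hQk : Q ∈ PK B := by
    rw [hQ]
    apply (PK B).sub_mem ((PK B).sub_mem _ hA₀k)
    · apply sbs_PK (PK_mono hbB hp)
      intro a
      rw [hψ]
      rcases a with a | a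
      · exact X_mem _ _
      · exact C_mem (hτi a)
    · apply sbs_PK hA'k
      intro a
      rw [hφ]
      exact (PK B).add_mem (X_mem _ _) (C_mem (hgB a))
  have hQ0 : MvPolynomial.eval (fun k => P.qs (R k)) Q ∈ Id W r := by
    have e1 : MvPolynomial.eval (fun k => P.qs (R k)) (MvPolynomial.aeval φ A') =
        MvPolynomial.eval (fun k => P.qs (R k) + g k) A' := by
      rw [eval_sbs]
      congr 1
      apply congrArg (fun z => MvPolynomial.eval z)
      funext k
      rw [hφ, map_add, MvPolynomial.eval_X, MvPolynomial.eval_C]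
    have e2 : MvPolynomial.eval (fun k => P.qs (R k)) (MvPolynomial.aeval ψ p) =
        MvPolynomial.eval (Sum.elim (fun k => P.qs (R k)) ![τ, τ']) p := by
      rw [eval_sbs]
      congr 1
      apply congrArg (fun z => MvPolynomial.eval z)
      funext k
      rw [hψ]
      rcases k with k | k
      · show MvPolynomial.eval _ (MvPolynomial.X k) = _
        rw [MvPolynomial.eval_X]
        rfl
      · show MvPolynomial.eval _ (MvPolynomial.C _) = _
        rw [MvPolynomial.eval_C]
        rfl
    rw [hQ, map_sub, map_sub, e1, e2]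
    have h1 := (P'.qs_mem_Id hr).mpr hc
    have h2 := (P.qs_mem_Id hr).mpr hc
    rw [map_sub, qs_eval, ← hA'] at h1
    rw [map_sub, qs_eval, ← hA₀] at h2
    have h3 := eval_sub_mem (Id W r) A' (fun k => P'.qs (R k)) (fun k => P.qs (R k) + g k) (by
      intro k
      have h4 := hR k
      rw [hg]
      rwa [sub_sub] at h4)
    have h4 := (Id W r).add_mem ((Id W r).sub_mem h2 h1) ((Id W r).sub_mem hcc h3)
    have e3 : P.qs c - MvPolynomial.eval (fun i => P.qs (R i)) A₀ -
        (P'.qs c - MvPolynomial.eval (fun i => P'.qs (R i)) A') +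
        (P'.qs c - P.qs c - MvPolynomial.eval (Sum.elim (fun k => P.qs (R k)) ![τ, τ']) p -
          (MvPolynomial.eval (fun k => P'.qs (R k)) A' - MvPolynomial.eval (fun k => P.qs (R k) + g k) A')) =
        MvPolynomial.eval (fun k => P.qs (R k) + g k) A' - MvPolynomial.eval (fun k => P.qs (R k)) A₀ -
          MvPolynomial.eval (Sum.elim (fun k => P.qs (R k)) ![τ, τ']) p := by ring
    rwa [e3] at h4
  have hQm : ∀ m, Q.coeff m ∈ Id W r :=
    mv_small one_pos le_rfl (Rl_iff_Rt.mp hRl) hr le_rfl (PKr_of_PK le_rfl hQk) hQ0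
  have hpU : MvPolynomial.aeval ψ p ∈ Cf (TP b τ τ' r) := by
    apply sbs_Cf
    · intro m
      exact TP_const (hp m)
    · intro a
      rw [hψ]
      rcases a with a | a
      · exact X_Cf _ _
      · apply C_Cf
        fin_cases a
        · exact TP_fst _ _ _ _
        · exact TP_snd _ _ _ _
  -- downward induction
  have key : ∀ (N : ℕ) (m : κ →₀ ℕ), A.totalDegree < ∑ k, m k + N → WPol (vd bf 1) t (A.coeff m) r := by
    intro N
    induction N with
    | zero =>
      intro m hm
      have h1 : A.coeff m = 0 := by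
        apply MvPolynomial.coeff_eq_zero_of_totalDegree_lt
        rw [Nat.add_zero] at hm
        refine lt_of_lt_of_eq hm ?_
        symm
        apply Finset.sum_subset (Finset.subset_univ _)
        intro k _ hk
        exact Finsupp.notMem_support_iff.mp hk
      rw [h1]
      refine ⟨0, fun _ => 0, fun _ => ?_, ?_⟩
      · have h2 : dg (0 : QS S) 1 ≤ ⊥ := (Kn S 1 le_rfl ⊥).zero_mem
        exact h2.trans bot_le
      · unfold pe
        simp only [zero_mul, Finset.sum_const_zero, sub_self]
        exact (Id S r).zero_mem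
    | succ N ih =>
      intro m hm
      have hup : ∀ n : κ →₀ ℕ, ∑ k, m k < ∑ k, n k → P'.qs (A.coeff n) ∈ TP b τ τ' r := by
        intro n hn
        obtain ⟨k, α, h1, h2⟩ := ih n (by omega)
        have h3 := (P'.qs_mem_Id hr).mpr h2
        rw [map_sub, pe_map] at h3
        have h4 : pe (fun a => P'.qs (α a)) (P'.qs t) ∈ TP b τ τ' r := by
          unfold pe
          apply (TP b τ τ' r).sum_mem
          intro j _
          apply (TP b τ τ' r).mul_mem
          · apply TP_const
            rw [P'.qs_dg, ← hb']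
            exact P'.map_mono (h1 j)
          · apply (TP b τ τ' r).pow_mem
            rw [← hτ']
            exact TP_snd _ _ _ _
        have h5 := (TP b τ τ' r).add_mem (TP_small h3) h4
        rwa [sub_add_cancel] at h5
      have hco : (MvPolynomial.aeval φ A').coeff m = ∑ n ∈ A'.support, A'.coeff n * (∏ k, φ k ^ n k).coeff m := by
        rw [MvPolynomial.aeval_def, MvPolynomial.eval₂_eq', MvPolynomial.coeff_sum]
        apply Finset.sum_congr rfl
        intro n _
        rw [MvPolynomial.algebraMap_eq, MvPolynomial.coeff_C_mul]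
      have hsum : (MvPolynomial.aeval φ A').coeff m - P'.qs (A.coeff m) ∈ TP b τ τ' r := by
        have e1 : P'.qs (A.coeff m) = ∑ n ∈ A'.support, (if n = m then A'.coeff n else 0) := by
          rw [Finset.sum_ite_eq' A'.support m]
          split_ifs with h1
          · rw [hA', MvPolynomial.coeff_map]
          · rw [MvPolynomial.notMem_support_iff, hA', MvPolynomial.coeff_map] at h1
            exact h1
        rw [hco, e1, ← Finset.sum_sub_distrib]
        apply (TP b τ τ' r).sum_mem
        intro n _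
        by_cases hnm : n = m
        · rw [if_pos hnm, hφ, coeff_shift g _ n rfl m (by rw [hnm]), if_pos hnm, mul_one, sub_self]
          exact (TP b τ τ' r).zero_mem
        · rw [if_neg hnm, sub_zero]
          rcases le_or_gt (∑ k, n k) (∑ k, m k) with h1 | h1
          · rw [hφ, coeff_shift g _ n rfl m h1, if_neg hnm, mul_zero]
            exact (TP b τ τ' r).zero_mem
          · apply (TP b τ τ' r).mul_mem
            · rw [hA', MvPolynomial.coeff_map]
              exact hup n h1
            · have h2 : ∏ k, φ k ^ n k ∈ Cf (TP b τ τ' r) := by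
                apply (Cf _).prod_mem
                intro k _
                apply (Cf _).pow_mem
                rw [hφ]
                exact (Cf _).add_mem (X_Cf _ _) (C_Cf (hgU k))
              exact h2 m
      have hinc : P'.qs (A.coeff m) - P.qs (A.coeff m) ∈ TP b τ τ' r := by
        have h1 := TP_small (b := b) (τ := τ) (τ' := τ') (hQm m)
        rw [hQ, MvPolynomial.coeff_sub, MvPolynomial.coeff_sub] at h1
        have h2 := (TP b τ τ' r).add_mem ((TP b τ τ' r).sub_mem h1 hsum) (hpU m)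
        have e1 : (MvPolynomial.aeval φ A').coeff m - A₀.coeff m - (MvPolynomial.aeval ψ p).coeff m -
            ((MvPolynomial.aeval φ A').coeff m - P'.qs (A.coeff m)) + (MvPolynomial.aeval ψ p).coeff m =
            P'.qs (A.coeff m) - P.qs (A.coeff m) := by
          rw [hA₀, MvPolynomial.coeff_map]
          ring
        rwa [e1] at h2
      obtain ⟨Ψ, h1, h2⟩ := hinc
      rw [hb] at h1
      rw [hτ, hτ'] at h2
      exact wpol_of_incr P P' bf t (A.coeff m) hr0 hr hbf ((hA m).trans hqi) h1 h2 ht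
  exact key (A.totalDegree + 1) m₀ (by omega)

end

end Pool.Agent.Helper71.LINE
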