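import Pool.Agent.Helper57.TA.Def
import Pool.Agent.Helper57.TA.Dsc
import Pool.Agent.Helper57.TA.Alg

/-! (LINE), first part: a function of the base point whose increment along the curve is a polynomial in the two times
is a polynomial in the time. -/

set_option autoImplicit false

namespace Pool.Agent.Helper71.LINE

open Finset Filter Topology Pool.Agent.Helper69.RK Pool.Agent.Helper31.EC Pool.Agent.Helper31.EC.Sp
open Pool.Agent.Helper31.EC.QS Pool.Agent.Helper57.TA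

noncomputable section

variable {S W : Sp}

/-- two copies of a space given finitely many functions -/
theorem exists_copy2 {ι : Type} [Fintype ι] (f : ι → QS W) : ∃ (D : Sp) (p1 p2 : Pj D W),
    (∀ i, p1.qs (f i) = p2.qs (f i)) ∧ ∀ x y, I (p1.map x) (p2.map y) (p1.map (vd f 1)) = 0 := by
  obtain ⟨D, p1, p2, h1, h2⟩ := (Pj.id W).exists_copy (f ∘ (Fintype.equivFin ι).symm)
  refine ⟨D, p1, p2, fun i => ?_, fun x y => ?_⟩
  · have h3 := h1 (Fintype.equivFin ι i)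
    rw [Pj.id_qs, Function.comp_apply, Equiv.symm_apply_apply] at h3
    exact h3
  · have h3 := h2 x y
    rw [Pj.id_map, vd_equiv] at h3
    exact h3

/-- polynomials in one variable -/
theorem wpol_of_mv {b : S.L} {t a : QS S} {r : ℝ} {Q : MvPolynomial (Fin 1) (QS S)} (hQ : Q ∈ PK b)
    (h : a - MvPolynomial.eval (fun _ => t) Q ∈ Id S r) : WPol b t a r := by
  classical
  obtain ⟨N, hN⟩ : ∃ N, N = Q.totalDegree := ⟨_, rfl⟩
  refine ⟨N, fun j => Q.coeff (Finsupp.single 0 (j : ℕ)), fun j => hQ _, ?_⟩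
  have e : pe (fun j : Fin (N + 1) => Q.coeff (Finsupp.single 0 (j : ℕ))) t =
      MvPolynomial.eval (fun _ => t) Q := by
    rw [MvPolynomial.eval_eq']
    unfold pe
    rw [Fin.sum_univ_eq_sum_range (fun j => Q.coeff (Finsupp.single 0 j) * t ^ j) (N + 1)]
    have h1 : ∑ j ∈ Finset.range (N + 1), Q.coeff (Finsupp.single 0 j) * t ^ j =
        ∑ m ∈ (Finset.range (N + 1)).image (fun j => (Finsupp.single 0 j : Fin 1 →₀ ℕ)),
          Q.coeff m * ∏ i, t ^ m i := by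
      rw [Finset.sum_image]
      · apply Finset.sum_congr rfl
        intro j _
        rw [Fin.prod_univ_one, Finsupp.single_eq_same]
      · intro i _ j _ hij
        exact Finsupp.single_injective _ hij
    rw [h1]
    symm
    apply Finset.sum_subset
    · intro m hm
      rw [Finset.mem_image]
      have h2 : m = Finsupp.single 0 (m 0) := by
        refine Finsupp.ext fun i => ?_
        rw [Subsingleton.elim i 0, Finsupp.single_eq_same]
      refine ⟨m 0, ?_, h2.symm⟩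
      rw [Finset.mem_range, hN]
      have h3 := MvPolynomial.le_totalDegree hm
      have h4 : (m.sum fun _ e => e) = m 0 := by
        rw [h2, Finsupp.sum_single_index rfl, Finsupp.single_eq_same]
      omega
    · intro m _ hm
      rw [MvPolynomial.notMem_support_iff.mp hm, zero_mul]
  rw [e]
  exact h

/-- TWO COPIES -/
theorem wpol_of_incr (P P' : Pj W S) {ν : Type} [Fintype ν] (bf : ν → QS S) (t a : QS S) {r : ℝ} (hr0 : 0 < r)
    (hr : r ≤ 1) (hbf : ∀ i, P.qs (bf i) = P'.qs (bf i)) (ha : dg a 1 ≤ vd bf 1 ⊔ dg t 1)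
    {Ψ : MvPolynomial (Fin 2) (QS W)} (hΨ : Ψ ∈ PK (P.map (vd bf 1)))
    (he : P'.qs a - P.qs a - MvPolynomial.eval ![P.qs t, P'.qs t] Ψ ∈ Id W r)
    (ht : h (dg (P'.qs t) 1) (P.map (vd bf 1) ⊔ dg (P.qs t) 1) = 1) : WPol (vd bf 1) t a r := by
  obtain ⟨b, hb⟩ : ∃ b, b = P.map (vd bf 1) := ⟨_, rfl⟩
  have hb' : P'.map (vd bf 1) = b := by
    rw [hb, ← P'.qs_vd, ← P.qs_vd]
    congr 1
    funext i
    exact (hbf i).symm
  obtain ⟨τ, hτ⟩ : ∃ τ, τ = P.qs t := ⟨_, rfl⟩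
  obtain ⟨τ', hτ'⟩ : ∃ τ', τ' = P'.qs t := ⟨_, rfl⟩
  rw [← hb] at hΨ
  rw [← hτ, ← hτ'] at he
  rw [← hb, ← hτ, ← hτ'] at ht
  have ha1 : dg (P.qs a) 1 ≤ b ⊔ dg τ 1 := by
    rw [P.qs_dg, hb, hτ, P.qs_dg, ← P.map_sup]
    exact P.map_mono ha
  have ha2 : dg (P'.qs a) 1 ≤ b ⊔ dg τ' 1 := by
    rw [P'.qs_dg, ← hb', hτ', P'.qs_dg, ← P'.map_sup]
    exact P'.map_mono ha
  -- the polynomial in the first time
  obtain ⟨Y, hY⟩ : ∃ Y : MvPolynomial (Fin 1) (QS W),
      Y = MvPolynomial.C (P'.qs a) - MvPolynomial.aeval ![MvPolynomial.X 0, MvPolynomial.C τ'] Ψ := ⟨_, rfl⟩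
  have hYe : MvPolynomial.eval (fun _ => τ) Y = P'.qs a - MvPolynomial.eval ![τ, τ'] Ψ := by
    rw [hY, map_sub, MvPolynomial.eval_C, eval_sbs]
    congr 2
    apply congrArg (fun z => MvPolynomial.eval z)
    funext i
    fin_cases i
    · show MvPolynomial.eval _ (MvPolynomial.X 0) = τ
      rw [MvPolynomial.eval_X]
    · show MvPolynomial.eval _ (MvPolynomial.C τ') = τ'
      rw [MvPolynomial.eval_C]
  have hYk : Y ∈ PK (b ⊔ dg τ' 1) := by
    rw [hY]
    apply (PK _).sub_mem (C_mem ha2)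
    apply sbs_PK (PK_mono le_sup_left hΨ)
    intro i
    fin_cases i
    · exact X_mem _ _
    · exact C_mem le_sup_right
  have hYa : P.qs a - MvPolynomial.eval (fun _ => τ) Y ∈ Id W r := by
    rw [hYe]
    have h1 := (Id W r).neg_mem he
    have e : -(P'.qs a - P.qs a - MvPolynomial.eval ![τ, τ'] Ψ) =
        P.qs a - (P'.qs a - MvPolynomial.eval ![τ, τ'] Ψ) := by ring
    rwa [e] at h1
  -- the copies
  obtain ⟨f, hf⟩ : ∃ f : Option (Option ν) → QS W,
      f = fun o => o.elim τ (fun o => o.elim (P.qs a) (fun i => P.qs (bf i))) := ⟨_, rfl⟩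
  have hvd : vd f 1 = b ⊔ dg τ 1 := by
    apply le_antisymm
    · rw [vd_le]
      intro i
      rw [hf]
      match i with
      | none => exact le_sup_right
      | some none => exact ha1
      | some (some i) =>
        refine le_trans ?_ le_sup_left
        show dg (P.qs (bf i)) 1 ≤ b
        rw [P.qs_dg, hb]
        exact P.map_mono (dg_le_vd bf 1 i)
    · apply sup_le
      · rw [hb, ← P.qs_vd, vd_le]
        intro i
        have h1 := dg_le_vd f 1 (some (some i))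
        rw [hf] at h1
        rw [hf]
        exact h1
      · have h1 := dg_le_vd f 1 none
        rw [hf] at h1
        rw [hf]
        exact h1
  obtain ⟨D, p1, p2, hc, hI⟩ := exists_copy2 f
  rw [hvd] at hI
  rw [hf] at hc
  have cτ : p1.qs τ = p2.qs τ := hc none
  have ca : p1.qs (P.qs a) = p2.qs (P.qs a) := hc (some none)
  have cb : ∀ i, p1.qs (P.qs (bf i)) = p2.qs (P.qs (bf i)) := fun i => hc (some (some i))
  obtain ⟨β, hβ⟩ : ∃ β, β = p1.map b := ⟨_, rfl⟩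
  have hβ' : p2.map b = β := by
    rw [hβ, hb, ← P.qs_vd, ← p1.qs_vd, ← p2.qs_vd]
    congr 1
    funext i
    exact (cb i).symm
  obtain ⟨θ, hθ⟩ : ∃ θ, θ = p1.qs τ := ⟨_, rfl⟩
  obtain ⟨t1, ht1⟩ : ∃ t1, t1 = p1.qs τ' := ⟨_, rfl⟩
  obtain ⟨t2, ht2⟩ : ∃ t2, t2 = p2.qs τ' := ⟨_, rfl⟩
  have hI' : ∀ x y, I (p1.map x) (p2.map y) (β ⊔ dg θ 1) = 0 := by
    intro x y
    have h1 := hI x y
    rw [p1.map_sup, ← p1.qs_dg, ← hβ, ← hθ] at h1
    exact h1
  have F1 : h (dg t1 1) (β ⊔ dg θ 1) = 1 := by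
    rw [ht1, hβ, hθ, p1.qs_dg, p1.qs_dg, ← p1.map_sup, p1.h_map]
    exact ht
  have F2 : h (dg t2 1) (β ⊔ dg θ 1) = 1 := by
    rw [ht2, ← hβ', hθ, cτ, p2.qs_dg, p2.qs_dg, ← p2.map_sup, p2.h_map]
    exact ht
  have F3 : h (dg θ 1) β = 1 := by
    rw [hθ, hβ, p1.qs_dg, p1.h_map]
    have h1 : h (dg τ' 1) b = h (dg τ 1) b := by
      rw [hτ', P'.qs_dg, hτ, P.qs_dg]
      nth_rewrite 1 [← hb']
      rw [P'.h_map, hb, P.h_map]
    rw [← h1]
    apply le_antisymm (h_dg_le_one _ _)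
    exact ht.ge.trans (h_anti (le_sup_left : b ≤ b ⊔ dg τ 1))
  have F4 : h (dg t2 1) (dg t1 1 ⊔ (β ⊔ dg θ 1)) = 1 := by
    have h1 := hI' (dg τ' 1) (dg τ' 1)
    rw [← p1.qs_dg, ← p2.qs_dg, ← ht1, ← ht2, I_zero_iff_h'] at h1
    rw [h1, F2]
  have F5 : I (dg t1 1) (dg t2 1) β = 0 := by
    apply le_antisymm _ (I_nonneg _ _ _)
    rw [I_eq']
    have h1 : h (dg t2 1) (dg t1 1 ⊔ (β ⊔ dg θ 1)) ≤ h (dg t2 1) (dg t1 1 ⊔ β) :=
      h_anti (sup_le_sup_left (le_sup_left : β ≤ β ⊔ dg θ 1) (dg t1 1))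
    have h2 := h_dg_le_one t2 β
    linarith
  have F6 : h (dg θ 1) (β ⊔ (dg t1 1 ⊔ dg t2 1)) = 1 := by
    apply le_antisymm (h_dg_le_one _ _)
    have h1 := h_chain (dg θ 1) (dg t1 1 ⊔ dg t2 1) β
    have h2 := h_chain (dg t1 1) (dg t2 1) (dg θ 1 ⊔ β)
    have h3 := h_chain (dg t1 1 ⊔ dg t2 1) (dg θ 1) β
    have h4 := h_chain (dg t1 1) (dg t2 1) β
    rw [sup_comm (dg θ 1) β] at h2 h1
    rw [F1, F4] at h2
    rw [h2, F3] at h1
    have h5 := h_dg_le_one t1 β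
    have h6 := h_dg_le_one t2 (dg t1 1 ⊔ β)
    rw [sup_comm (dg t1 1 ⊔ dg t2 1) (dg θ 1), h1, sup_comm (dg t1 1 ⊔ dg t2 1) β] at h3
    linarith
  have hx : Rt 1 (fun _ : Fin 1 => θ) (β ⊔ (dg t1 1 ⊔ dg t2 1)) := by
    apply Rt.of_ge zero_le_one
    rw [Fintype.card_fin, Nat.cast_one, one_mul]
    refine F6.ge.trans ?_
    apply h_mono
    exact dg_le_vd (fun _ : Fin 1 => θ) 1 0
  have hk1 : ∀ m, dg (p1.qs (Y.coeff m)) 1 ≤ β ⊔ dg t1 1 := by
    intro m
    rw [p1.qs_dg, hβ, ht1, p1.qs_dg, ← p1.map_sup]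
    exact p1.map_mono (hYk m)
  have hk2 : ∀ m, dg (p2.qs (Y.coeff m)) 1 ≤ β ⊔ dg t2 1 := by
    intro m
    rw [p2.qs_dg, ← hβ', ht2, p2.qs_dg, ← p2.map_sup]
    exact p2.map_mono (hYk m)
  have hag : ∀ m, p1.qs (Y.coeff m) - p2.qs (Y.coeff m) ∈ Id D r := by
    intro m
    have h1 := mv_small_unique one_pos le_rfl hx (P := MvPolynomial.map p1.qs Y) (Q := MvPolynomial.map p2.qs Y)
      hr le_rfl (PKr_of_PK le_rfl (fun m => by
        rw [MvPolynomial.coeff_map]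
        exact (hk1 m).trans (sup_le_sup_left le_sup_left _)))
      (PKr_of_PK le_rfl (fun m => by
        rw [MvPolynomial.coeff_map]
        exact (hk2 m).trans (sup_le_sup_left le_sup_right _))) (by
        have h2 := (p1.qs_mem_Id hr).mpr hYa
        have h3 := (p2.qs_mem_Id hr).mpr hYa
        rw [map_sub, qs_eval] at h2 h3
        rw [← hθ] at h2
        rw [← ca, ← cτ, ← hθ] at h3
        have h4 := (Id D r).sub_mem h3 h2
        rwa [sub_sub_sub_cancel_left] at h4) m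
    rwa [MvPolynomial.coeff_map, MvPolynomial.coeff_map] at h1
  have hYr : ∀ m, dg (Y.coeff m) r ≤ b := by
    intro m
    rw [← p1.map_le, ← p1.qs_dg, ← hβ]
    refine le_of_markov (A := dg t1 1) (B := dg t2 1) ?_ ?_ F5
    · rw [sup_comm]
      exact (QS.dg_mono _ hr).trans (hk1 m)
    · rw [dg_eq_of_sub_mem (hag m) le_rfl hr, sup_comm]
      exact (QS.dg_mono _ hr).trans (hk2 m)
  have hxt : Rt 1 (fun _ : Fin 1 => t) (vd bf 1) := by
    apply Rt.of_ge zero_le_one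
    rw [Fintype.card_fin, Nat.cast_one, one_mul]
    have h1 : h (dg t 1) (vd bf 1) = 1 := by
      have h2 := F3
      rw [hθ, hβ, p1.qs_dg, p1.h_map, hτ, hb, P.qs_dg, P.h_map] at h2
      exact h2
    refine h1.ge.trans ?_
    apply h_mono
    exact dg_le_vd (fun _ : Fin 1 => t) 1 0
  rw [hb] at hYr
  rw [hτ] at hYa
  obtain ⟨Q, hQ1, _, hQ3⟩ := descend_coeff P a one_pos le_rfl hxt hr0.le le_rfl hr (P := Y) hYr hYa
  exact wpol_of_mv hQ1 hQ3

end

end Pool.Agent.Helper71.LINE
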